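import Pool.Agent.Helper45.LGCompact

/-!
A compactification of `ℂ^4` with second Betti number one and fourth Betti number four: a smooth
linear section of codimension two of the Lagrangian Grassmannian `LG(3,6)`, the boundary being the
hyperplane section `x0 = 0`. The section is cut out of the cone of all
`(x0, S, Y, y0)` (`S`, `Y` symmetric matrices of size three, `x0`, `y0` scalars) with
`adj S = x0 Y`, `adj Y = y0 S`, `S Y = x0 y0 I` by the two linear equations
`S 1 1 = Y 1 1` and `S 2 2 = Y 1 2`.
-/

namespace Pool.Agent.Results.MP_7c5836_ag.MiddleBettiFour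

open Pool.Agent.Helper45

/-- There is a compactification `(V, A)` of `ℂ^4` with `b_2(V) = 1` and `b_4(V) = 4`. -/
theorem result : ∃ (V : Type) (_ : TopologicalSpace V)
    (_ : ChartedSpace (EuclideanSpace ℂ (Fin 4)) V) (A : Set V),
    IsCompactification 4 V A ∧ bettiNumber V 2 = 1 ∧ bettiNumber V 4 = 4 :=
  ⟨VV, inferInstance, inferInstance, AA, isCompactification_VV, betti_two, betti_four⟩

end Pool.Agent.Results.MP_7c5836_ag.MiddleBettiFour
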